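import Mathlib
set_option autoImplicit false
namespace Pool.Agent.Results.MP_c23b5e_al.Counter

/-- `{N} ∪ 𝒜` is a nontrivial Frobenius partition of `G`; in addition all members of `𝒜` are
nontrivial and different from `N`. -/
def IsFP {G : Type} [Group G] (N : Subgroup G) (𝒜 : Set (Subgroup G)) : Prop :=
  N.Normal ∧ (∀ g : G, g ≠ 1 → ∃! S, S ∈ insert N 𝒜 ∧ g ∈ S) ∧
  (∀ A ∈ 𝒜, ∀ γ ∉ A, ∀ a ∈ A, γ⁻¹ * a * γ ∈ A → a = 1) ∧
  (∀ A ∈ 𝒜, ∀ γ : G, A.map (MulAut.conj γ⁻¹).toMonoidHom ∈ 𝒜) ∧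
  (∃ S ∈ insert N 𝒜, ∃ T ∈ insert N 𝒜, S ≠ T ∧ S ≠ ⊥ ∧ T ≠ ⊥) ∧ ⊥ ∉ 𝒜 ∧ N ∉ 𝒜

@[ext] structure Aff (R : Type) [CommRing R] where
  m : Rˣ
  t : R

section
variable {R : Type} [CommRing R]
instance : Mul (Aff R) := ⟨fun g h => ⟨g.m * h.m, g.t + g.m * h.t⟩⟩
instance : One (Aff R) := ⟨⟨1, 0⟩⟩
instance : Inv (Aff R) := ⟨fun g => ⟨g.m⁻¹, -(↑g.m⁻¹ * g.t)⟩⟩
@[simp] lemma mul_m (g h : Aff R) : (g * h).m = g.m * h.m := rfl
@[simp] lemma mul_t (g h : Aff R) : (g * h).t = g.t + g.m * h.t := rfl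
@[simp] lemma one_m : (1 : Aff R).m = 1 := rfl
@[simp] lemma one_t : (1 : Aff R).t = 0 := rfl
@[simp] lemma inv_m (g : Aff R) : g⁻¹.m = g.m⁻¹ := rfl
@[simp] lemma inv_t (g : Aff R) : g⁻¹.t = -(↑g.m⁻¹ * g.t) := rfl
instance : Group (Aff R) := Group.ofLeftAxioms
  (fun a b c => by ext <;> simp [mul_assoc]; ring) (fun a => by ext <;> simp)
  (fun a => by ext <;> simp)

lemma comm_iff (g h : Aff R) : g * h = h * g ↔ (1 - g.m) * h.t = (1 - h.m) * g.t := by
  rw [Aff.ext_iff]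
  simp only [mul_m, mul_t, mul_comm g.m, true_and]
  constructor <;> intro e <;> linear_combination -e

variable [IsDomain R]

lemma ne0 {g : Aff R} (h : g.m ≠ 1) : (1 - g.m : R) ≠ 0 := fun e =>
  h (Units.ext (sub_eq_zero.1 e).symm)

lemma fp (Γ : Subgroup (Aff R)) (N : Subgroup Γ) (hN : N.Normal)
    (h1 : ∀ x : Γ, x.1.m = 1 → x ∈ N) (h2 : ∀ x ∉ N, ∀ y ∈ N, x * y = y * x → y = 1)
    (h3 : N ≠ ⊥) (h4 : ∃ x, x ∉ N) :
    IsFP N {A | ∃ x ∉ N, A = Subgroup.centralizer {x}} := by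
  have cm : ∀ x y : Γ, y ∈ Subgroup.centralizer {x} ↔
      (1 - x.1.m) * y.1.t = (1 - y.1.m) * x.1.t := fun x y => by
    rw [Subgroup.mem_centralizer_singleton_iff, eq_comm, ← comm_iff, Subtype.ext_iff]; rfl
  have tr : ∀ x y : Γ, x ∉ N → y ∈ Subgroup.centralizer {x} →
      Subgroup.centralizer {x} ≤ Subgroup.centralizer {y} := fun x y hx a z b => by
    rw [cm] at *
    apply mul_left_cancel₀ (ne0 fun e => hx (h1 x e))
    linear_combination (1 - y.1.m) * b - (1 - z.1.m) * a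
  have out : ∀ x y : Γ, x ∉ N → y ∈ Subgroup.centralizer {x} → y ≠ 1 → y ∉ N :=
    fun x y hx a b c => b (h2 x hx y c (Subgroup.mem_centralizer_singleton_iff.1 a).symm)
  have eq : ∀ x y : Γ, x ∉ N → y ∈ Subgroup.centralizer {x} → y ≠ 1 →
      Subgroup.centralizer {x} = Subgroup.centralizer {y} := fun x y hx a b =>
    le_antisymm (tr x y hx a) (tr y x (out x y hx a b) (by
      rw [Subgroup.mem_centralizer_singleton_iff] at *; exact a.symm))
  have self : ∀ x : Γ, x ∈ Subgroup.centralizer {x} := fun x =>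
    Subgroup.mem_centralizer_singleton_iff.2 rfl
  have nN : ∀ x ∉ N, Subgroup.centralizer {x} ≠ N := fun x hx e => hx (e ▸ self x)
  have nB : ∀ x ∉ N, Subgroup.centralizer {x} ≠ ⊥ := fun x hx e => hx (by
    have := self x
    rw [e, Subgroup.mem_bot] at this
    rw [this]; exact N.one_mem)
  refine ⟨hN, fun g hg => ?_, ?_, ?_, ?_, ?_, ?_⟩
  · by_cases k : g ∈ N
    · refine ⟨N, ⟨.inl rfl, k⟩, ?_⟩
      rintro S ⟨rfl | ⟨x, hx, rfl⟩, a⟩
      · rfl
      · exact (out x g hx a hg k).elim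
    · refine ⟨_, ⟨.inr ⟨g, k, rfl⟩, self g⟩, ?_⟩
      rintro S ⟨rfl | ⟨x, hx, rfl⟩, a⟩
      · exact (k a).elim
      · exact eq x g hx a hg
  · rintro _ ⟨x, hx, rfl⟩ γ hγ a ha hb
    by_contra a1
    apply hγ
    rw [eq x a hx ha a1, Subgroup.mem_centralizer_singleton_iff]
    have : γ⁻¹ * a * γ = a := by
      rw [cm] at ha hb
      have e : (γ⁻¹ * a * γ : Γ).1.m = a.1.m := by simp
      rw [e, ← ha] at hb
      exact Subtype.ext (Aff.ext e (mul_left_cancel₀ (ne0 fun e => hx (h1 x e)) hb))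
    calc γ * a = γ * (γ⁻¹ * a * γ) := by rw [this]
      _ = a * γ := by group
  · rintro _ ⟨x, hx, rfl⟩ γ
    refine ⟨γ⁻¹ * x * γ, fun k => hx (by simpa [mul_assoc] using hN.conj_mem _ k γ), ?_⟩
    ext y
    rw [Subgroup.mem_map_equiv, Subgroup.mem_centralizer_singleton_iff,
      Subgroup.mem_centralizer_singleton_iff]
    simp only [MulAut.conj_symm_apply, inv_inv]
    constructor <;> intro e
    · calc y * (γ⁻¹ * x * γ) = γ⁻¹ * (γ * y * γ⁻¹ * x) * γ := by group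
        _ = _ := by rw [e]; group
    · calc γ * y * γ⁻¹ * x = γ * (y * (γ⁻¹ * x * γ)) * γ⁻¹ := by group
        _ = _ := by rw [e]; group
  · obtain ⟨x, hx⟩ := h4
    exact ⟨N, .inl rfl, _, .inr ⟨x, hx, rfl⟩, (nN x hx).symm, h3, nB x hx⟩
  · rintro ⟨x, hx, e⟩; exact nB x hx e.symm
  · rintro ⟨x, hx, e⟩; exact nN x hx e.symm

/-- translations -/
def Tr (Γ : Subgroup (Aff R)) : Subgroup Γ where
  carrier := {x | x.1.m = 1}
  mul_mem' := fun a b => by simp_all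
  one_mem' := rfl
  inv_mem' := fun a => by simp_all

lemma fpT (Γ : Subgroup (Aff R)) (h3 : Tr Γ ≠ ⊥) (h4 : ∃ x, x ∉ Tr Γ) :
    IsFP (Tr Γ) {A | ∃ x ∉ Tr Γ, A = Subgroup.centralizer {x}} :=
  fp Γ _ ⟨fun n hn g => by
    have : n.1.m = 1 := hn
    show (g * n * g⁻¹).1.m = 1
    simp [this]⟩ (fun _ h => h) (fun x hx y hy e => by
      have k : y.1.m = 1 := hy
      have := (comm_iff _ _).1 (congrArg Subtype.val e)
      rw [k] at this
      exact Subtype.ext (Aff.ext k (by simpa [ne0 hx] using this))) h3 h4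
end

abbrev M := Multiplicative (ℤ × ℤ)
abbrev R := MonoidAlgebra ℤ M

def F : M →* DualNumber ℤ where
  toFun g := TrivSqZeroExt.inl 1 + TrivSqZeroExt.inr g.toAdd.1
  map_one' := by simp
  map_mul' g h := by ext <;> simp [add_comm]

noncomputable def ρ : R →ₐ[ℤ] DualNumber ℤ := MonoidAlgebra.lift ℤ _ M F
noncomputable def u : M →* Rˣ := (MonoidAlgebra.of ℤ M).toHomUnits

lemma ρu1 (g : M) : (ρ (u g)).fst = 1 := by simp [ρ, u, F]
lemma ρu2 (g : M) : (ρ (u g)).snd = g.toAdd.1 := by simp [ρ, u, F]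
lemma u_inj : Function.Injective u := fun g h e =>
  MonoidAlgebra.of_injective (R := ℤ) (congrArg Units.val e)

noncomputable def Γ : Subgroup (Aff R) where
  carrier := {x | ∃ g, x.m = u g ∧ (ρ x.t).fst = g.toAdd.2}
  mul_mem' := by
    rintro a b ⟨g, g1, g2⟩ ⟨h, h1, h2⟩
    exact ⟨g * h, by simp [g1, h1], by simp [g1, g2, h2, ρu1]⟩
  one_mem' := ⟨1, by simp, by simp⟩
  inv_mem' := by
    rintro a ⟨g, g1, g2⟩
    exact ⟨g⁻¹, by simp [g1], by rw [inv_t, g1, ← map_inv]; simp [-map_inv, g2, ρu1]⟩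

lemma key (x y : Γ) (e : x * y = y * x) (g h : M) (hg : x.1.m = u g) (hh : y.1.m = u h) :
    g.toAdd.1 * h.toAdd.2 = h.toAdd.1 * g.toAdd.2 := by
  obtain ⟨g', g1, g2⟩ := x.2
  obtain ⟨h', h1, h2⟩ := y.2
  obtain rfl := u_inj (hg.symm.trans g1)
  obtain rfl := u_inj (hh.symm.trans h1)
  have := congrArg (fun r => (ρ r).snd) ((comm_iff _ _).1 (congrArg Subtype.val e))
  simpa [hg, hh, ρu1, ρu2, g2, h2, mul_comm] using this

noncomputable def a0 : Γ := ⟨⟨u (.ofAdd (1, 0)), 0⟩, _, rfl, by simp⟩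
noncomputable def b0 : Γ := ⟨⟨u (.ofAdd (0, 1)), 1⟩, _, rfl, by simp⟩
noncomputable def c0 : Γ := ⟨⟨1, 1 - u (.ofAdd (1, 0))⟩, 1, by simp, by simp [ρu1]⟩

lemma a0n : a0 ∉ Tr Γ := fun h => by
  have : u (.ofAdd (1, 0)) = u 1 := by rw [map_one]; exact h
  simpa using u_inj this

lemma c0n : c0 ≠ 1 := fun h => ne0 (g := a0.1) a0n (congrArg (fun x : Γ => x.1.t) h)

lemma fp1 : IsFP (Tr Γ) {A | ∃ x ∉ Tr Γ, A = Subgroup.centralizer {x}} :=
  fpT Γ (fun h => c0n (by rw [← Subgroup.mem_bot, ← h]; rfl)) ⟨a0, a0n⟩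

noncomputable def ψ : Γ →* Multiplicative ℤ where
  toFun x := .ofAdd (ρ x.1.t).fst
  map_one' := by simp
  map_mul' x y := by
    obtain ⟨g, g1, -⟩ := x.2
    simp [g1, ρu1, ofAdd_add]

lemma mem_ker (x : Γ) : x ∈ ψ.ker ↔ (ρ x.1.t).fst = 0 := by simp [ψ]

lemma fp2 : IsFP ψ.ker {A | ∃ x ∉ ψ.ker, A = Subgroup.centralizer {x}} := by
  have h1 : ∀ x : Γ, x.1.m = 1 → x ∈ ψ.ker := fun x hx => by
    obtain ⟨g, g1, g2⟩ := x.2
    obtain rfl : g = 1 := u_inj (by rw [← g1, hx, map_one])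
    rw [mem_ker, g2]; rfl
  refine fp Γ _ inferInstance h1 (fun x hx y hy e => ?_)
    (fun h => c0n (by rw [← Subgroup.mem_bot, ← h]; exact h1 _ rfl)) ⟨b0, by rw [mem_ker]; simp [b0]⟩
  obtain ⟨g, g1, g2⟩ := x.2
  obtain ⟨h, k1, k2⟩ := y.2
  have := key x y e g h g1 k1
  rw [mem_ker, g2] at hx
  rw [mem_ker, k2] at hy
  have h0 : h = 1 := by
    rw [hy, mul_zero, eq_comm, mul_eq_zero] at this
    exact Multiplicative.toAdd.injective (Prod.ext (this.resolve_right hx) hy)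
  rw [h0, map_one] at k1
  have := (comm_iff _ _).1 (congrArg Subtype.val e)
  rw [k1] at this
  have n : x.1.m ≠ 1 := fun k => hx (by rw [← g2, ← mem_ker]; exact h1 x k)
  exact Subtype.ext (Aff.ext k1 (by simpa [ne0 n] using this))

lemma inf {S : Type} [CommRing S] [IsDomain S] [CharZero S] (Γ : Subgroup (Aff S)) (c : Γ)
    (h : c.1.m = 1) (h1 : c ≠ 1) : Infinite Γ := by
  have e : ∀ n : ℕ, (c ^ n).1.m = 1 ∧ (c ^ n).1.t = n * c.1.t := fun n => by
    induction n with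
    | zero => simp
    | succ n ih => rw [pow_succ]; simp only [Subgroup.coe_mul, mul_m, mul_t, ih, h]; simp; ring
  refine Infinite.of_injective (fun n : ℕ => c ^ n) fun i j k => ?_
  have := congrArg (fun x : Γ => x.1.t) k
  simp only [(e _).2] at this
  exact_mod_cast mul_right_cancel₀ (fun z => h1 (Subtype.ext (Aff.ext h z))) this

def iU : GaussianIntˣ := ⟨⟨0, 1⟩, ⟨0, -1⟩, by decide, by decide⟩

theorem result :
    (∃ (G : Type) (_ : Group G) (N N' : Subgroup G) (𝒜 𝒜' : Set (Subgroup G)),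
      Infinite G ∧ IsFP N 𝒜 ∧ IsFP N' 𝒜' ∧ N ≠ N') ∧
    (∃ (G : Type) (_ : Group G) (N : Subgroup G) (𝒜 : Set (Subgroup G)),
      Infinite G ∧ IsFP N 𝒜 ∧ ∃ A ∈ 𝒜, ∃ B ∈ 𝒜, IsEmpty (A ≃* B)) ∧
    (∃ (G : Type) (_ : Group G) (N : Subgroup G) (𝒜 : Set (Subgroup G)),
      Infinite G ∧ IsFP N 𝒜 ∧ N ≠ ⊥ ∧ ∀ A ∈ 𝒜, ∃ g : G, ∀ n ∈ N, ∀ a ∈ A, g ≠ n * a) := by
  have : CharZero R := ((TrivSqZeroExt.fstHom ℤ ℤ ℤ).comp ρ).toRingHom.charZero
  have i1 := inf Γ c0 rfl c0n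
  refine ⟨⟨Γ, _, _, _, _, _, i1, fp1, fp2, fun h => a0n (by rw [h, mem_ker]; simp [a0])⟩, ?_,
    ⟨Γ, _, _, _, i1, fp1, fun h => c0n (by rw [← Subgroup.mem_bot, ← h]; rfl), ?_⟩⟩
  · let c : (⊤ : Subgroup (Aff GaussianInt)) := ⟨⟨1, 1⟩, trivial⟩
    let x : (⊤ : Subgroup (Aff GaussianInt)) := ⟨⟨iU, 0⟩, trivial⟩
    let y : (⊤ : Subgroup (Aff GaussianInt)) := ⟨⟨-1, 1⟩, trivial⟩
    have c1 : c ≠ 1 := fun h => one_ne_zero (congrArg (fun x : (⊤ : Subgroup _) => x.1.t) h)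
    have x1 : x ∉ Tr ⊤ := fun h => absurd (congrArg Units.val h) (by decide)
    have y1 : y ∉ Tr ⊤ := fun h => absurd (congrArg Units.val h) (by decide)
    refine ⟨(⊤ : Subgroup (Aff GaussianInt)), _, _, _, inf _ c rfl c1,
      fpT ⊤ (fun h => c1 (by rw [← Subgroup.mem_bot, ← h]; rfl)) ⟨x, x1⟩,
      _, ⟨x, x1, rfl⟩, _, ⟨y, y1, rfl⟩, ⟨fun φ => ?_⟩⟩
    have sq : ∀ z : Subgroup.centralizer {y}, z * z = 1 := fun z => by
      have e := (comm_iff _ _).1 (congrArg Subtype.val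
        (Subgroup.mem_centralizer_singleton_iff.1 z.2))
      obtain ⟨⟨⟨⟨m, m', e1, e2⟩, t⟩, _⟩, _⟩ := z
      have e3 : m = 1 - 2 * t := by
        simp [y] at e
        linear_combination -e
      have n : m.norm = 1 := by
        have := (Zsqrtd.norm_eq_one_iff' (by norm_num) m).2 ⟨⟨m, m', e1, e2⟩, rfl⟩
        exact this
      have e4 : t * (1 - t) = 0 := by
        rw [e3, Zsqrtd.norm_def] at n
        simp at n
        have r0 : 0 ≤ t.re * (t.re - 1) := by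
          rcases le_or_gt t.re 0 with h | h
          · exact mul_nonneg_of_nonpos_of_nonpos h (by omega)
          · exact mul_nonneg h.le (by omega)
        have i0 : t.im = 0 := by nlinarith
        rw [i0] at n
        ext <;> simp [i0]
        have : t.re * (1 - t.re) = 0 := by linarith
        simpa using this
      refine Subtype.ext (Subtype.ext (Aff.ext (Units.ext ?_) ?_))
      · show m * m = 1
        rw [e3]; linear_combination (-4) * e4
      · show t + m * t = 0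
        rw [e3]; linear_combination 2 * e4
    have := sq (φ ⟨x, Subgroup.mem_centralizer_singleton_iff.2 rfl⟩)
    rw [← map_mul, map_eq_one_iff _ φ.injective] at this
    exact absurd (congrArg (fun z : Subgroup.centralizer {x} => z.1.1.m.1) this) (by decide)
  · rintro _ ⟨x, hx, rfl⟩
    by_contra h
    push Not at h
    obtain ⟨n, hn, a, ha, e1⟩ := h a0
    obtain ⟨n', hn', b, hb, e2⟩ := h b0
    have k1 : n.1.m = 1 := hn
    have k2 : n'.1.m = 1 := hn'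
    have m1 : a.1.m = u (.ofAdd (1, 0)) := by
      simpa [k1, a0] using (congrArg (fun x : Γ => x.1.m) e1).symm
    have m2 : b.1.m = u (.ofAdd (0, 1)) := by
      simpa [k2, b0] using (congrArg (fun x : Γ => x.1.m) e2).symm
    have c : a * b = b * a := by
      rw [Subgroup.mem_centralizer_singleton_iff] at ha hb
      have ha := (comm_iff _ _).1 (congrArg Subtype.val ha)
      have hb := (comm_iff _ _).1 (congrArg Subtype.val hb)
      refine Subtype.ext ((comm_iff _ _).2 (mul_left_cancel₀ (ne0 hx) ?_))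
      linear_combination (1 - b.1.m) * ha - (1 - a.1.m) * hb
    simpa using key a b c _ _ m1 m2

end Pool.Agent.Results.MP_c23b5e_al.Counter
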